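import Mathlib
import Pool.Agent.TH302.Tarry.Main
import Pool.Agent.TH302.Cubes.Odd

/-!
# MP_2d9e0f_co: all-or-nothing transforms over an alphabet of six letters
-/

set_option autoImplicit false
set_option maxHeartbeats 4000000

namespace Pool.Agent.Results.MP_2d9e0f_co.OrderSix

open Function

/-- `phi` is a `(t, s, v)`-all-or-nothing transform over the alphabet `Fin v`: it is a bijection
and for all `t`-sets `I`, `J` of coordinates the map `x ↦ (x restricted to I, phi x restricted to
the complement of J)` is a bijection. -/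
def IsAONT (t s v : ℕ) (phi : (Fin s → Fin v) → (Fin s → Fin v)) : Prop :=
  Bijective phi ∧ ∀ I J : Finset (Fin s), I.card = t → J.card = t →
    Bijective (fun x : Fin s → Fin v =>
      (((fun i => x i.1), (fun j => phi x j.1)) :
        ({i // i ∈ I} → Fin v) × ({j // j ∉ J} → Fin v)))

/-- Jointly bijective cubes that are bijective along all lines give a `(1, s, v)`-AONT. -/
theorem aont_of_cubes {s v : ℕ} (F : (Fin s → Fin v) → (Fin s → Fin v)) (hF : Bijective F)
    (hline : ∀ (i j : Fin s) (y : Fin s → Fin v), Bijective (fun t => F (update y j t) i)) :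
    ∃ phi, IsAONT 1 s v phi := by
  classical
  let e := Equiv.ofBijective F hF
  have he : ∀ y, e y = F y := fun y => rfl
  refine ⟨e.symm, e.symm.bijective, ?_⟩
  intro I J hI hJ
  obtain ⟨i, rfl⟩ := Finset.card_eq_one.1 hI
  obtain ⟨j, rfl⟩ := Finset.card_eq_one.1 hJ
  constructor
  · intro x x' h
    rw [Prod.mk.injEq] at h
    obtain ⟨h1, h2⟩ := h
    have h3 : ∀ k, k ≠ j → e.symm x k = e.symm x' k := by
      intro k hk
      exact congrFun h2 ⟨k, by simpa using hk⟩
    have h4 : x i = x' i := congrFun h1 ⟨i, by simp⟩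
    have h5 : e.symm x' = update (e.symm x) j (e.symm x' j) := by
      funext k
      by_cases hk : k = j
      · subst hk; simp
      · rw [update_of_ne hk, h3 k hk]
    have h6 : F (update (e.symm x) j (e.symm x j)) i = F (update (e.symm x) j (e.symm x' j)) i := by
      rw [← h5, update_eq_self, ← he, ← he, Equiv.apply_symm_apply, Equiv.apply_symm_apply, h4]
    have h7 := (hline i j (e.symm x)).1 h6
    have h9 : e.symm x' = e.symm x := by
      rw [h5, ← h7, update_eq_self]
    exact (e.symm.injective h9).symm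
  · rintro ⟨a, z⟩
    have hi : i ∈ ({i} : Finset (Fin s)) := by simp
    obtain ⟨t0⟩ : Nonempty (Fin v) := ⟨a ⟨i, hi⟩⟩
    obtain ⟨y, hy⟩ : ∃ y : Fin s → Fin v, ∀ k (hk : k ∉ ({j} : Finset (Fin s))), y k = z ⟨k, hk⟩ := by
      refine ⟨fun k => if hk : k ∉ ({j} : Finset (Fin s)) then z ⟨k, hk⟩ else t0, ?_⟩
      intro k hk
      simp only [dif_pos hk]
    obtain ⟨t, ht⟩ := (hline i j y).2 (a ⟨i, hi⟩)
    refine ⟨F (update y j t), ?_⟩
    rw [Prod.mk.injEq]
    constructor
    · funext k
      obtain ⟨k, hk⟩ := k
      have : k = i := by simpa using hk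
      subst this
      exact ht
    · funext k
      obtain ⟨k, hk⟩ := k
      have hk' : k ≠ j := by simpa using hk
      change e.symm (F (update y j t)) k = _
      rw [← he, Equiv.symm_apply_apply, update_of_ne hk', hy k hk]

/-- the triple of latin squares gives a `(1, 3, 6)`-AONT -/
theorem exists_three : ∃ phi, IsAONT 1 3 6 phi := by
  have hT := Pool.Agent.TH302.Cubes.isTriple_sq
  refine aont_of_cubes (fun y c => y 0 + Pool.Agent.TH302.Cubes.sq c (y 1) (y 2)) ?_ ?_
  · rw [← Finite.injective_iff_bijective]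
    intro y y' h
    have h0 := congrFun h 0
    have h1 := congrFun h 1
    have h2 := congrFun h 2
    simp only at h0 h1 h2
    obtain ⟨e1, e2⟩ := hT.inj (y 1) (y 2) (y' 1) (y' 2)
      (by
        have := congrArg₂ (· - ·) h1 h0
        simpa [add_sub_add_left_eq_sub] using this)
      (by
        have := congrArg₂ (· - ·) h2 h0
        simpa [add_sub_add_left_eq_sub] using this)
    rw [e1, e2] at h0
    have e0 := add_right_cancel h0
    funext i
    fin_cases i
    · exact e0
    · exact e1
    · exact e2
  · intro c j y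
    fin_cases j
    · have : Bijective (fun t : Fin 6 => t + Pool.Agent.TH302.Cubes.sq c (y 1) (y 2)) :=
        (Equiv.addRight _).bijective
      simpa using this
    · simpa using Pool.Agent.TH302.Cubes.bij_add_const (hT.col c (y 2)) (y 0)
    · simpa using Pool.Agent.TH302.Cubes.bij_add_const (hT.row c (y 1)) (y 0)

/-- for every odd `s ≥ 3` there is a `(1, s, 6)`-AONT -/
theorem exists_odd {s : ℕ} (hs : 3 ≤ s) (hodd : Odd s) : ∃ phi, IsAONT 1 s 6 phi := by
  rcases Nat.lt_or_ge s 5 with h | h
  · have : s = 3 := by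
      obtain ⟨k, rfl⟩ := hodd
      omega
    subst this
    exact exists_three
  · obtain ⟨C, hC1, hC2⟩ := Pool.Agent.TH302.Cubes.exists_odd h hodd
    refine aont_of_cubes (fun y i => C i.castSucc y) (hC2 Fin.castSucc (Fin.castSucc_injective _)) ?_
    intro i j y
    exact hC1 i.castSucc j y

/-- by Tarry's theorem there is no `(1, 2, 6)`-AONT -/
theorem not_exists_two : ¬ ∃ phi, IsAONT 1 2 6 phi := by
  rintro ⟨phi, h1, h2⟩
  have key : ∀ (i j : Fin 2) (x x' : Fin 2 → Fin 6), x i = x' i → phi x j = phi x' j → x = x' := by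
    intro i j x x' h3 h4
    apply (h2 {i} {j + 1} (by simp) (by simp)).1
    rw [Prod.mk.injEq]
    constructor
    · funext k
      obtain ⟨k, hk⟩ := k
      have : k = i := by simpa using hk
      subst this
      exact h3
    · funext k
      obtain ⟨k, hk⟩ := k
      have : k = j := by
        have hk' : k ≠ j + 1 := by simpa using hk
        have : ∀ k j : Fin 2, k ≠ j + 1 → k = j := by decide
        exact this k j hk'
      subst this
      exact h4
  refine Pool.Agent.TH302.Tarry.tarry (fun a b => phi ![a, b] 0) (fun a b => phi ![a, b] 1)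
    ?_ ?_ ?_ ?_ ?_
  · intro a b b' h
    have := key 0 0 ![a, b] ![a, b'] rfl h
    exact congrFun this 1
  · intro b a a' h
    have := key 1 0 ![a, b] ![a', b] rfl h
    exact congrFun this 0
  · intro a b b' h
    have := key 0 1 ![a, b] ![a, b'] rfl h
    exact congrFun this 1
  · intro b a a' h
    have := key 1 1 ![a, b] ![a', b] rfl h
    exact congrFun this 0
  · intro a b a' b' h h'
    have : phi ![a, b] = phi ![a', b'] := by
      funext k
      fin_cases k
      · exact h
      · exact h'
    have := h1.1 this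
    exact ⟨congrFun this 0, congrFun this 1⟩

/-- Over an alphabet of six letters there is a `(1, s, 6)`-AONT for every odd `s ≥ 3`, but no
`(1, 2, 6)`-AONT. In particular a `(1, 3, 6)`-AONT exists and a `(1, 2, 6)`-AONT does not, so the
existence of a `(t, s, v)`-AONT does not imply that of a `(t, s - 1, v)`-AONT. -/
theorem result :
    (∀ s : ℕ, 3 ≤ s → Odd s → ∃ phi, IsAONT 1 s 6 phi) ∧ (¬ ∃ phi, IsAONT 1 2 6 phi) ∧
    ¬ (∀ v t s : ℕ, 1 ≤ v → 1 ≤ t → t ≤ s - 1 → (∃ phi, IsAONT t s v phi) →
      ∃ phi, IsAONT t (s - 1) v phi) :=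
  ⟨fun _ hs hodd => exists_odd hs hodd, not_exists_two, fun h =>
    not_exists_two (h 6 1 3 (by norm_num) le_rfl (by norm_num) exists_three)⟩

end Pool.Agent.Results.MP_2d9e0f_co.OrderSix
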